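import Pool.Agent.D0H44.DM.Stm

/-! Module GGP: the correlation. -/

set_option autoImplicit false

namespace Pool.Agent.D0H70.DM

open MeasureTheory Set Filter Pool.Agent.D0H44.DM
open scoped Convolution

theorem ct_int {f : ℝ → ℝ} (hf : Continuous f) (x y : ℝ) : Integrable (ct f x y) := by
  unfold ct
  exact (integrable_indicator_iff measurableSet_Ioc).2 hf.integrableOn_Ioc

theorem ct_meas {f : ℝ → ℝ} (hf : Continuous f) (x y : ℝ) : Measurable (ct f x y) := by
  unfold ct
  exact hf.measurable.indicator measurableSet_Ioc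

theorem ct_integral (f : ℝ → ℝ) {x y : ℝ} (hxy : x ≤ y) : ∫ v, ct f x y v = ∫ t in x..y, f t := by
  unfold ct
  rw [integral_indicator measurableSet_Ioc, intervalIntegral.integral_of_le hxy]

theorem ct_nonneg {f : ℝ → ℝ} (hf : ∀ t, 0 ≤ f t) (x y v : ℝ) : 0 ≤ ct f x y v :=
  Set.indicator_nonneg (fun t _ => hf t) v

theorem ct_sq (f : ℝ → ℝ) (x y v : ℝ) : ct f x y v ^ 2 = ct (fun t => f t ^ 2) x y v := by
  unfold ct
  by_cases h : v ∈ Ioc x y
  · rw [indicator_of_mem h, indicator_of_mem h]
  · rw [indicator_of_notMem h, indicator_of_notMem h]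
    norm_num

theorem ct_zero {f : ℝ → ℝ} {x y v : ℝ} (h : v ∉ Ioc x y) : ct f x y v = 0 := by
  unfold ct
  exact indicator_of_notMem h f

theorem GG_even (f : ℝ → ℝ) (x y w : ℝ) : GG f x y (-w) = GG f x y w := by
  unfold GG
  rw [← integral_add_right_eq_self (fun v => ct f x y v * ct f x y (v + -w)) w]
  congr 1
  funext v
  rw [add_neg_cancel_right, mul_comm]

theorem t_GGP : S_GGP := by
  intro f hf h0 x y hxy
  have hm := ct_meas hf x y
  have hi := ct_int hf x y
  have hn := ct_nonneg h0 x y
  have hi2 : Integrable (fun v => ct f x y v ^ 2) := by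
    have h1 : (fun v => ct f x y v ^ 2) = ct (fun t => f t ^ 2) x y := funext (ct_sq f x y)
    rw [h1]
    exact ct_int (hf.pow 2) x y
  have hI2 : ∫ v, ct f x y v ^ 2 = ∫ t in x..y, f t ^ 2 := by
    simp_rw [ct_sq]
    exact ct_integral _ hxy
  refine ⟨?_, ?_, ?_, GG_even f x y, ?_, ?_⟩
  · unfold GG
    have h1 : StronglyMeasurable (Function.uncurry fun w v : ℝ => ct f x y v * ct f x y (v + w)) := by
      apply Measurable.stronglyMeasurable
      exact (hm.comp measurable_snd).mul (hm.comp (measurable_snd.add measurable_fst))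
    exact h1.integral_prod_right.measurable
  · intro w
    exact integral_nonneg (fun v => mul_nonneg (hn v) (hn (v + w)))
  · intro w
    have h1 : ∫ v, ct f x y (v + w) ^ 2 = ∫ t in x..y, f t ^ 2 := by
      rw [integral_add_right_eq_self (fun v => ct f x y v ^ 2) w, hI2]
    have hi3 : Integrable (fun v => ct f x y (v + w) ^ 2) := hi2.comp_add_right w
    have h2 : GG f x y w ≤ ∫ v, (ct f x y v ^ 2 + ct f x y (v + w) ^ 2) / 2 := by
      unfold GG
      refine integral_mono_of_nonneg ?_ ((hi2.add hi3).div_const 2) ?_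
      · exact Filter.Eventually.of_forall (fun v => mul_nonneg (hn v) (hn (v + w)))
      · refine Filter.Eventually.of_forall (fun v => ?_)
        have := sq_nonneg (ct f x y v - ct f x y (v + w))
        show ct f x y v * ct f x y (v + w) ≤ _
        nlinarith
    have h3 : ∫ v, (ct f x y v ^ 2 + ct f x y (v + w) ^ 2) / 2 = ∫ t in x..y, f t ^ 2 := by
      rw [integral_div, integral_add hi2 hi3, h1, hI2]
      ring
    linarith
  · intro w hw
    unfold GG
    have h1 : (fun v => ct f x y v * ct f x y (v + w)) = fun _ => 0 := by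
      funext v
      by_cases hv : v ∈ Ioc x y
      · have hv2 : v + w ∉ Ioc x y := by
          intro hv2
          have : |w| ≤ y - x := by
            rw [abs_le]
            constructor
            · linarith [hv.2, hv2.1]
            · linarith [hv.1, hv2.2]
          linarith
        rw [ct_zero hv2, mul_zero]
      · rw [ct_zero hv, zero_mul]
    rw [h1, integral_zero]
  · have h1 : ∀ w, GG f x y w =
        (ct f x y ⋆[ContinuousLinearMap.mul ℝ ℝ, volume] (fun t => ct f x y (-t))) w := by
      intro w
      rw [← GG_even]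
      unfold GG
      rw [convolution_def]
      congr 1
      funext v
      rw [ContinuousLinearMap.mul_apply', neg_sub, sub_eq_add_neg]
    simp_rw [h1]
    rw [integral_convolution (ContinuousLinearMap.mul ℝ ℝ) hi hi.comp_neg, ContinuousLinearMap.mul_apply',
      integral_neg_eq_self (fun t => ct f x y t) volume, ct_integral f hxy]
    ring

end Pool.Agent.D0H70.DM
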