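import Pool.Agent.D0H44.DM.Stm

/-! Module UF: unfolding. -/

set_option autoImplicit false

namespace Pool.Agent.D0H70.DM

open MeasureTheory Set Filter Pool.Agent.D0H44.DM

theorem t_UF : S_UF := by
  intro φ M R α hm hM hR hα
  have hφi : Integrable φ := by
    have h1 : IntegrableOn φ (Icc (-R) R) := by
      refine Measure.integrableOn_of_bounded (M := M) ?_ hm.aestronglyMeasurable ?_
      · exact measure_Icc_lt_top.ne
      · exact Filter.Eventually.of_forall (fun v => by rw [Real.norm_eq_abs]; exact hM v)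
    refine h1.integrable_of_forall_notMem_eq_zero (fun v hv => hR v ?_)
    by_contra h
    exact hv (abs_le.1 (not_lt.1 h))
  obtain ⟨N, hN⟩ := exists_nat_gt (R / α)
  have hN' : R < α * N := by
    rw [div_lt_iff₀ hα] at hN
    linarith
  set S : Finset ℤ := Finset.Icc (-(N : ℤ)) N with hS
  have hout : ∀ n : ℤ, n ∉ S → ∀ β : ℝ, 0 ≤ β → β ≤ α → φ (α * n + β) = 0 := by
    intro n hn β h0 h1
    apply hR
    rw [hS, Finset.mem_Icc, not_and_or, not_le, not_le] at hn
    rcases hn with hn | hn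
    · have h2 : (n : ℝ) + 1 ≤ -(N : ℝ) := by exact_mod_cast hn
      rw [lt_abs]
      right
      nlinarith
    · have h2 : (N : ℝ) + 1 ≤ n := by exact_mod_cast hn
      rw [lt_abs]
      left
      nlinarith
  have hfin : ∀ β : ℝ, 0 ≤ β → β ≤ α →
      ∑' n : ℤ, φ (α * n + β) = ∑ n ∈ S, φ (α * n + β) := fun β h0 h1 =>
    tsum_eq_sum (fun n hn => hout n hn β h0 h1)
  have hint : ∀ n : ℤ, IntervalIntegrable (fun β => φ (α * n + β)) volume 0 α := fun n =>
    (hφi.comp_add_left (α * n)).intervalIntegrable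
  have hsum : IntervalIntegrable (fun β => ∑ n ∈ S, φ (α * n + β)) volume 0 α :=
    (integrable_finsetSum S (fun n _ => hφi.comp_add_left (α * n))).intervalIntegrable
  have hEq : EqOn (fun β => ∑' n : ℤ, φ (α * n + β)) (fun β => ∑ n ∈ S, φ (α * n + β))
      (uIcc 0 α) := by
    intro β hβ
    rw [uIcc_of_le hα.le] at hβ
    exact hfin β hβ.1 hβ.2
  refine ⟨?_, ?_⟩
  · refine hsum.congr ?_
    intro β hβ
    exact (hEq (uIoc_subset_uIcc hβ)).symm
  · rw [intervalIntegral.integral_congr hEq, intervalIntegral.integral_finsetSum (fun n _ => hint n)]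
    set ψ : ℝ → ℝ := fun u => φ (α * u) with hψ
    have hψi : Integrable ψ := hφi.comp_mul_left' hα.ne'
    have h1 := hψi.hasSum_intervalIntegral 0
    have h2 : ∀ n : ℤ, ∫ x in (0 : ℝ) + n..0 + n + 1, ψ x = α⁻¹ * ∫ β in (0 : ℝ)..α, φ (α * n + β) := by
      intro n
      rw [hψ, intervalIntegral.integral_comp_mul_left φ hα.ne', intervalIntegral.integral_comp_add_left,
        smul_eq_mul]
      congr 2
      · ring
      · ring
    have h3 : ∀ n : ℤ, n ∉ S → ∫ β in (0 : ℝ)..α, φ (α * n + β) = 0 := by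
      intro n hn
      rw [intervalIntegral.integral_congr (g := fun _ => (0 : ℝ))]
      · simp
      · intro β hβ
        rw [uIcc_of_le hα.le] at hβ
        exact hout n hn β hβ.1 hβ.2
    have h4 : ∫ x, ψ x = ∑ n ∈ S, α⁻¹ * ∫ β in (0 : ℝ)..α, φ (α * n + β) := by
      rw [← h1.tsum_eq]
      simp_rw [h2]
      exact tsum_eq_sum (fun n hn => by rw [h3 n hn, mul_zero])
    have h5 : ∫ x, ψ x = α⁻¹ * ∫ x, φ x := by
      rw [hψ, Measure.integral_comp_mul_left, abs_of_pos (inv_pos.2 hα), smul_eq_mul]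
    rw [h5, ← Finset.mul_sum] at h4
    exact (mul_left_cancel₀ (inv_ne_zero hα.ne') h4).symm

end Pool.Agent.D0H70.DM
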